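import Pool.Agent.H98.AM.Targets

/-! # MP_29bb0a_mp, module I5: weighted count of the roots in the heavy set. helper67 -/

open Filter Topology Polynomial

noncomputable section

namespace Pool.Agent.H67.AM

open Pool.Agent.H98.AM

/-- at most six grid intervals of length `D`, fattened by `2D`, contain a point -/
theorem card_six (D x : ℝ) (hD : 0 < D) (S : Finset ℤ) :
    ((S.filter fun m : ℤ => ((m : ℝ) - 2) * D ≤ x ∧ x ≤ (m + 3) * D).card : ℝ) ≤ 6 := by
  have hsub : (S.filter fun m : ℤ => ((m : ℝ) - 2) * D ≤ x ∧ x ≤ (m + 3) * D)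
      ⊆ Finset.Icc ⌈x / D - 3⌉ ⌊x / D + 2⌋ := by
    intro m hm
    rw [Finset.mem_filter] at hm
    obtain ⟨_, h1, h2⟩ := hm
    rw [Finset.mem_Icc]
    constructor
    · apply Int.ceil_le.mpr
      rw [sub_le_iff_le_add, div_le_iff₀ hD]
      exact h2
    · apply Int.le_floor.mpr
      rw [← sub_le_iff_le_add, le_div_iff₀ hD]
      exact h1
  have h1 := Finset.card_le_card hsub
  rw [Int.card_Icc] at h1
  have h2 : (⌊x / D + 2⌋ + 1 - ⌈x / D - 3⌉).toNat ≤ 6 := by
    have h3 : ((⌊x / D + 2⌋ : ℤ) : ℝ) ≤ x / D + 2 := Int.floor_le _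
    have h4 : x / D - 3 ≤ ((⌈x / D - 3⌉ : ℤ) : ℝ) := Int.le_ceil _
    have h5 : ⌊x / D + 2⌋ - ⌈x / D - 3⌉ ≤ 5 := by
      have : ((⌊x / D + 2⌋ - ⌈x / D - 3⌉ : ℤ) : ℝ) ≤ ((5 : ℤ) : ℝ) := by
        push_cast
        linarith
      exact_mod_cast this
    omega
  exact_mod_cast h1.trans h2

/-- one scale -/
theorem one_scale (d9 : T_D9) (s : ℕ) (D : ℝ[X]) (mu : ℝ → ℝ) (T u Δ : ℝ) (hD : Disc s D)
    (hs : 1 ≤ s) (hmu : ∀ e, 0 ≤ mu e) (hsum : ∑ e ∈ rts D, mu e ≤ 40) (hT : 1 ≤ T)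
    (hu : 0 < u) (hu1 : u ≤ 1) (hΔ : 0 < Δ) (F : Finset ℝ)
    (hF : ∀ e ∈ F, e ∈ rts D ∧ ∃ d, u * om D e ≤ d ∧ T * d < bm D mu e d ∧ Δ ≤ d ∧ d < 2 * Δ) :
    ∑ e ∈ F, om D e ≤ 720 / (u * T) := by
  classical
  set m : ℝ → ℤ := fun e => ⌊e / Δ⌋ with hm
  set S : Finset ℤ := F.image m with hS
  have hT0 : 0 < T := by linarith
  have hfl : ∀ e : ℝ, (m e : ℝ) * Δ ≤ e ∧ e ≤ ((m e : ℝ) + 1) * Δ := by
    intro e
    constructor
    · have := Int.floor_le (e / Δ)
      rwa [le_div_iff₀ hΔ] at this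
    · have := (Int.lt_floor_add_one (e / Δ)).le
      rwa [div_le_iff₀ hΔ] at this
  -- the inner sums
  have h1 : ∀ k ∈ S, ∑ e ∈ F.filter (fun e => m e = k), om D e ≤ 3 * Δ / u := by
    intro k _
    have h := d9 s D hD hs (F.filter (fun e => m e = k)) (k * Δ) ((k + 1) * Δ) (2 * Δ / u) ?_ ?_ ?_
    · refine h.trans ?_
      have h2 : Δ ≤ Δ / u := by
        rw [le_div_iff₀ hu]
        nlinarith
      have h3 : 3 * Δ / u = Δ / u + 2 * Δ / u := by ring
      rw [h3]
      nlinarith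
    · intro e he
      rw [Finset.mem_filter] at he
      obtain ⟨he1, he2⟩ := he
      obtain ⟨hr, d, hd1, _, _, hd4⟩ := hF e he1
      have h3 := hfl e
      rw [he2] at h3
      refine ⟨?_, h3.1, h3.2, ?_⟩
      · unfold rts at hr
        rw [Multiset.mem_toFinset, mem_roots'] at hr
        exact hr.2
      · rw [le_div_iff₀ hu]
        linarith
    · nlinarith
    · positivity
  -- the number of intervals
  set fat : ℤ → ℝ := fun k =>
    ∑ e ∈ (rts D).filter (fun x => ((k : ℝ) - 2) * Δ ≤ x ∧ x ≤ (k + 3) * Δ), mu e with hfat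
  have h2 : ∀ k ∈ S, T * Δ ≤ fat k := by
    intro k hk
    obtain ⟨e, he, rfl⟩ := Finset.mem_image.mp hk
    obtain ⟨_, d, _, hd2, hd3, hd4⟩ := hF e he
    have h3 := hfl e
    have h4 : bm D mu e d ≤ fat (m e) := by
      apply Finset.sum_le_sum_of_subset_of_nonneg
      · intro x hx
        rw [Finset.mem_filter] at hx ⊢
        refine ⟨hx.1, ?_⟩
        have h5 := abs_le.mp hx.2
        constructor <;> linarith [h5.1, h5.2, h3.1, h3.2]
      · intro x _ _
        exact hmu x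
    nlinarith
  have h3 : ∑ k ∈ S, fat k ≤ 240 := by
    have h4 : ∑ k ∈ S, fat k = ∑ e ∈ rts D, mu e *
        ((S.filter fun k : ℤ => ((k : ℝ) - 2) * Δ ≤ e ∧ e ≤ (k + 3) * Δ).card : ℝ) := by
      simp only [hfat, Finset.sum_filter]
      rw [Finset.sum_comm]
      refine Finset.sum_congr rfl fun e _ => ?_
      rw [← Finset.sum_filter, Finset.sum_const, nsmul_eq_mul, mul_comm]
    rw [h4]
    calc _ ≤ ∑ e ∈ rts D, mu e * 6 :=
          Finset.sum_le_sum fun e _ => mul_le_mul_of_nonneg_left (card_six Δ e hΔ S) (hmu e)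
      _ = (∑ e ∈ rts D, mu e) * 6 := by rw [Finset.sum_mul]
      _ ≤ 240 := by linarith
  have h4 : (S.card : ℝ) * (T * Δ) ≤ 240 := by
    have := Finset.sum_le_sum h2
    rw [Finset.sum_const, nsmul_eq_mul] at this
    linarith
  have h5 : ∑ e ∈ F, om D e = ∑ k ∈ S, ∑ e ∈ F.filter (fun e => m e = k), om D e :=
    (Finset.sum_fiberwise_of_maps_to (fun e he => Finset.mem_image_of_mem m he) _).symm
  rw [h5]
  calc _ ≤ ∑ k ∈ S, 3 * Δ / u := Finset.sum_le_sum h1
    _ = (S.card : ℝ) * (3 * Δ / u) := by rw [Finset.sum_const, nsmul_eq_mul]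
    _ = ((S.card : ℝ) * (T * Δ)) * (3 / (u * T)) := by
        field_simp
    _ ≤ 240 * (3 / (u * T)) := mul_le_mul_of_nonneg_right h4 (by positivity)
    _ = 720 / (u * T) := by ring

theorem i5 (d9 : T_D9) : T_I5 := by
  classical
  intro s D mu T u w0 hD hs hmu hroots hsum hT hu hu1 hw0 hw01 F hF
  have hT0 : 0 < T := by linarith
  have huw : 0 < u * w0 := by positivity
  have huw1 : u * w0 ≤ 1 := by nlinarith
  choose! d hd using fun e he => (hF e he).2.2
  set k : ℝ → ℕ := fun e => Nat.log 2 ⌊d e / (u * w0)⌋₊ with hk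
  set K : ℕ := Nat.log 2 ⌊40 / (u * w0)⌋₊ with hK
  have hd40 : ∀ e ∈ F, d e ≤ 40 := by
    intro e he
    have h1 := (hd e he).2
    have h2 : bm D mu e (d e) ≤ 40 := by
      refine le_trans ?_ hsum
      apply Finset.sum_le_sum_of_subset_of_nonneg
      · exact Finset.filter_subset _ _
      · intro x _ _
        exact hmu x
    have h3 : 0 ≤ d e := by
      have := (hd e he).1
      have h4 := (hF e he).2.1
      nlinarith [mul_pos hu hw0, mul_le_mul_of_nonneg_left h4 hu.le]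
    nlinarith
  have hdlow : ∀ e ∈ F, u * w0 ≤ d e := by
    intro e he
    exact (mul_le_mul_of_nonneg_left (hF e he).2.1 hu.le).trans (hd e he).1
  have hkK : ∀ e ∈ F, k e ∈ Finset.range (K + 1) := by
    intro e he
    rw [Finset.mem_range, Nat.lt_succ_iff]
    apply Nat.log_mono_right
    apply Nat.floor_mono
    exact div_le_div_of_nonneg_right (hd40 e he) huw.le
  have hscale : ∀ e ∈ F, 2 ^ k e * (u * w0) ≤ d e ∧ d e < 2 * (2 ^ k e * (u * w0)) := by
    intro e he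
    have h1 : 1 ≤ d e / (u * w0) := by
      rw [le_div_iff₀ huw, one_mul]
      exact hdlow e he
    have h2 : ⌊d e / (u * w0)⌋₊ ≠ 0 := by
      have : 1 ≤ ⌊d e / (u * w0)⌋₊ := Nat.le_floor (by exact_mod_cast h1)
      omega
    constructor
    · have h3 : (2 : ℕ) ^ k e ≤ ⌊d e / (u * w0)⌋₊ := Nat.pow_log_le_self 2 h2
      have h4 : ((2 : ℝ)) ^ k e ≤ d e / (u * w0) := by
        have h5 : (((2 : ℕ) ^ k e : ℕ) : ℝ) ≤ (⌊d e / (u * w0)⌋₊ : ℝ) := by exact_mod_cast h3
        have h6 := Nat.floor_le (by linarith : 0 ≤ d e / (u * w0))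
        push_cast at h5
        linarith
      rwa [le_div_iff₀ huw] at h4
    · have h3 : ⌊d e / (u * w0)⌋₊ < 2 ^ (k e + 1) := Nat.lt_pow_succ_log_self (by norm_num) _
      have h4 : d e / (u * w0) < 2 ^ (k e + 1) := by
        have h5 := Nat.lt_floor_add_one (d e / (u * w0))
        have h6 : ((⌊d e / (u * w0)⌋₊ : ℝ)) + 1 ≤ 2 ^ (k e + 1) := by
          exact_mod_cast h3
        linarith
      rw [div_lt_iff₀ huw, pow_succ] at h4
      linarith
  have hsplit : ∑ e ∈ F, om D e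
      = ∑ j ∈ Finset.range (K + 1), ∑ e ∈ F.filter (fun e => k e = j), om D e :=
    (Finset.sum_fiberwise_of_maps_to hkK _).symm
  have h1 : ∀ j ∈ Finset.range (K + 1),
      ∑ e ∈ F.filter (fun e => k e = j), om D e ≤ 720 / (u * T) := by
    intro j _
    apply one_scale d9 s D mu T u (2 ^ j * (u * w0)) hD hs hmu hsum hT hu hu1 (by positivity)
    intro e he
    rw [Finset.mem_filter] at he
    obtain ⟨he1, he2⟩ := he
    have h2 := hscale e he1
    rw [he2] at h2
    exact ⟨(hF e he1).1, d e, (hd e he1).1, (hd e he1).2, h2.1, h2.2⟩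
  rw [hsplit]
  have h2 := Finset.sum_le_sum h1
  rw [Finset.sum_const, Finset.card_range, nsmul_eq_mul] at h2
  refine h2.trans ?_
  -- the number of scales
  set L := Real.log (1 / (u * w0)) with hL
  have hL0 : 0 ≤ L := Real.log_nonneg (by rw [le_div_iff₀ huw]; linarith)
  have hlog2 := Real.log_two_gt_d9
  have hKL : (K : ℝ) ≤ 6 + 2 * L := by
    have h3 : (1 : ℝ) ≤ 40 / (u * w0) := by
      rw [le_div_iff₀ huw]
      linarith
    have h4 : ⌊40 / (u * w0)⌋₊ ≠ 0 := by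
      have : 1 ≤ ⌊40 / (u * w0)⌋₊ := Nat.le_floor (by exact_mod_cast h3)
      omega
    have h5 : (2 : ℕ) ^ K ≤ ⌊40 / (u * w0)⌋₊ := Nat.pow_log_le_self 2 h4
    have h6 : ((2 : ℝ)) ^ K ≤ 64 * (1 / (u * w0)) := by
      have h7 : (((2 : ℕ) ^ K : ℕ) : ℝ) ≤ (⌊40 / (u * w0)⌋₊ : ℝ) := by exact_mod_cast h5
      have h8 := Nat.floor_le (by linarith : 0 ≤ 40 / (u * w0))
      push_cast at h7
      have h9 : 40 / (u * w0) ≤ 64 * (1 / (u * w0)) := by
        rw [mul_one_div]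
        exact div_le_div_of_nonneg_right (by norm_num) huw.le
      linarith
    have h7 := Real.log_le_log (by positivity) h6
    rw [Real.log_pow, Real.log_mul (by norm_num) (by positivity), ← hL,
      show (64 : ℝ) = 2 ^ 6 by norm_num, Real.log_pow] at h7
    push_cast at h7
    nlinarith
  have h3 : (((K + 1 : ℕ) : ℝ)) * 720 ≤ 10000 * (1 + L) := by
    push_cast
    nlinarith
  calc (((K + 1 : ℕ) : ℝ)) * (720 / (u * T)) = ((((K + 1 : ℕ) : ℝ)) * 720) / (u * T) := by ring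
    _ ≤ 10000 * (1 + L) / (u * T) := div_le_div_of_nonneg_right h3 (by positivity)

end Pool.Agent.H67.AM
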