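import Pool.Agent.H98.AM.Targets

/-! # MP_29bb0a_mp, module O3: eigenvalues of the Harper operator on a ring and the discriminant.
helper67 -/

open Filter Topology Polynomial
open scoped ComplexConjugate

noncomputable section

namespace Pool.Agent.H67.AM

open Pool.Agent.H98.AM

/-! ### phases -/

theorem ex_add (a b : ℝ) : ex (a + b) = ex a * ex b := by
  unfold ex
  rw [← Complex.exp_add]
  congr 1
  push_cast
  ring

theorem ex_zero : ex 0 = 1 := by simp [ex]

theorem ex_int (n : ℤ) : ex n = 1 := by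
  unfold ex
  rw [Complex.exp_eq_one_iff]
  exact ⟨n, by push_cast; ring⟩

theorem norm_ex (a : ℝ) : ‖ex a‖ = 1 := by
  unfold ex
  have : (2 * Real.pi * a * Complex.I : ℂ) = ((2 * Real.pi * a : ℝ) : ℂ) * Complex.I := by
    push_cast; ring
  rw [this, Complex.norm_exp_ofReal_mul_I]

theorem ex_ne (a : ℝ) : ex a ≠ 0 := Complex.exp_ne_zero _

theorem ex_neg (a : ℝ) : ex (-a) = (ex a)⁻¹ := by
  apply eq_inv_of_mul_eq_one_left
  rw [← ex_add]
  simp [ex_zero]

theorem conj_ex (a : ℝ) : conj (ex a) = (ex a)⁻¹ := by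
  rw [Complex.inv_def, Complex.normSq_eq_norm_sq, norm_ex]
  simp

/-- every unimodular number is a phase -/
theorem exists_ex (z : ℂ) (hz : ‖z‖ = 1) : ∃ t : ℝ, z = ex t := by
  refine ⟨Complex.arg z / (2 * Real.pi), ?_⟩
  have h := Complex.norm_mul_exp_arg_mul_I z
  rw [hz, Complex.ofReal_one, one_mul] at h
  have hpi : (Real.pi : ℂ) ≠ 0 := by exact_mod_cast Real.pi_ne_zero
  have h2 : ex (Complex.arg z / (2 * Real.pi)) = Complex.exp (Complex.arg z * Complex.I) := by
    unfold ex
    congr 1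
    push_cast
    field_simp
  rw [h2, h]

/-! ### spectral averaging of an operator of finite order -/

section avg
variable {X : Type} [AddCommGroup X] [Module ℂ X]

/-- the averaging operator `∑_{k<N} l^{-k} T^k` -/
def avg (T : X →ₗ[ℂ] X) (N : ℕ) (l : ℂ) : X →ₗ[ℂ] X :=
  ∑ k ∈ Finset.range N, (l⁻¹) ^ k • T ^ k

theorem avg_T (T : X →ₗ[ℂ] X) (N : ℕ) (l : ℂ) (hl : l ≠ 0) (hT : T ^ N = (l ^ N) • 1) (x : X) :
    avg T N l (T x) = l • avg T N l x := by
  have h : avg T N l * T = l • avg T N l := by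
    have h1 : ∀ n : ℕ, (∑ k ∈ Finset.range n, (l⁻¹) ^ k • T ^ k) * T
        = l • (∑ k ∈ Finset.range n, (l⁻¹) ^ k • T ^ k) + l • ((l⁻¹) ^ n • T ^ n - 1) := by
      intro n
      induction n with
      | zero => simp
      | succ n ih =>
        rw [Finset.sum_range_succ, add_mul, ih, smul_mul_assoc, ← pow_succ]
        have : (l⁻¹) ^ n = l * (l⁻¹) ^ (n + 1) := by
          rw [pow_succ]; field_simp
        have e3 : l • l⁻¹ ^ (n + 1) • T ^ (n + 1) = (l * l⁻¹ ^ (n + 1)) • T ^ (n + 1) := by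
          rw [mul_smul]
        rw [smul_sub, smul_sub, smul_add, e3, ← this]
        abel
    unfold avg
    rw [h1 N, hT, smul_smul, inv_pow, inv_mul_cancel₀ (pow_ne_zero _ hl), one_smul, sub_self,
      smul_zero, add_zero]
  exact LinearMap.congr_fun h x

theorem avg_comm (T S : X →ₗ[ℂ] X) (N : ℕ) (l : ℂ) (h : S * T = T * S) (x : X) :
    avg T N l (S x) = S (avg T N l x) := by
  have h2 : S * avg T N l = avg T N l * S := by
    unfold avg
    rw [Finset.mul_sum, Finset.sum_mul]
    refine Finset.sum_congr rfl fun k _ => ?_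
    rw [mul_smul_comm, smul_mul_assoc]
    congr 1
    exact (Commute.pow_right (show Commute S T from h) k)
  exact (LinearMap.congr_fun h2 x).symm

theorem exists_avg_ne (T : X →ₗ[ℂ] X) (N : ℕ) (hN : 1 ≤ N) (c : ℂ) (hc : ‖c‖ = 1)
    (hT : T ^ N = c • 1) (f : X) (hf : f ≠ 0) :
    ∃ l : ℂ, ‖l‖ = 1 ∧ l ^ N = c ∧ avg T N l f ≠ 0 := by
  obtain ⟨t, rfl⟩ := exists_ex c hc
  have hN0 : (N : ℝ) ≠ 0 := by positivity
  have hNC : (N : ℂ) ≠ 0 := by exact_mod_cast (by omega : N ≠ 0)
  -- the `N` roots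
  set lam : ℕ → ℂ := fun j => ex (t / N + j / N) with hlam
  have hpow : ∀ (a : ℝ) (k : ℕ), ex a ^ k = ex (k * a) := by
    intro a k
    induction k with
    | zero => simp [ex_zero]
    | succ k ih =>
      rw [pow_succ, ih, ← ex_add]
      congr 1
      push_cast
      ring
  have hl1 : ∀ j, ‖lam j‖ = 1 := fun j => norm_ex _
  have hl2 : ∀ j, lam j ^ N = ex t := by
    intro j
    rw [hlam]
    simp only
    rw [hpow, show (N : ℝ) * (t / N + j / N) = t + ((j : ℤ) : ℝ) by
      push_cast; field_simp, ex_add, ex_int, mul_one]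
  by_contra hcon
  push Not at hcon
  have hz : ∀ j, avg T N (lam j) f = 0 := fun j => hcon _ (hl1 j) (hl2 j)
  have hsum : ∑ j ∈ Finset.range N, avg T N (lam j) f = (N : ℂ) • f := by
    have h1 : ∀ j, avg T N (lam j) f = ∑ k ∈ Finset.range N, ((lam j)⁻¹) ^ k • (T ^ k) f := by
      intro j
      unfold avg
      rw [LinearMap.sum_apply]
      rfl
    simp only [h1]
    rw [Finset.sum_comm]
    have h2 : ∀ k ∈ Finset.range N, ∑ j ∈ Finset.range N, ((lam j)⁻¹) ^ k • (T ^ k) f
        = if k = 0 then (N : ℂ) • f else 0 := by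
      intro k hk
      rw [← Finset.sum_smul]
      split_ifs with h0
      · subst h0
        simp
      · have hk' : k < N := Finset.mem_range.mp hk
        have h3 : ∀ j, ((lam j)⁻¹) ^ k = ex (-(k * (t / N))) * (ex (-(k / N))) ^ j := by
          intro j
          rw [hlam]
          simp only
          rw [← ex_neg, hpow, hpow, ← ex_add]
          congr 1
          ring
        simp only [h3]
        rw [← Finset.mul_sum]
        have h4 : (∑ j ∈ Finset.range N, (ex (-(k / N : ℝ))) ^ j)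
            * (ex (-(k / N : ℝ)) - 1) = 0 := by
          rw [geom_sum_mul, hpow, show (N : ℝ) * (-(k / N)) = ((-(k : ℤ) : ℤ) : ℝ) by
            push_cast; field_simp, ex_int, sub_self]
        have h5 : ex (-(k / N : ℝ)) - 1 ≠ 0 := by
          intro h
          have h6 : ex (-(k / N : ℝ)) = 1 := sub_eq_zero.mp h
          unfold ex at h6
          rw [Complex.exp_eq_one_iff] at h6
          obtain ⟨n, hn⟩ := h6
          have hpi : (2 * Real.pi * Complex.I : ℂ) ≠ 0 := Complex.two_pi_I_ne_zero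
          have h7 : ((-(k / N : ℝ) : ℝ) : ℂ) = (n : ℂ) := by
            have : (2 * Real.pi * Complex.I : ℂ) * ((-(k / N : ℝ) : ℝ) : ℂ)
                = (2 * Real.pi * Complex.I : ℂ) * (n : ℂ) := by
              linear_combination hn
            exact mul_left_cancel₀ hpi this
          have h8 : (-(k / N : ℝ) : ℝ) = (n : ℝ) := by exact_mod_cast h7
          have h9 : (k : ℝ) = -(n : ℝ) * N := by
            field_simp at h8
            linarith
          have h10 : (k : ℤ) = -n * N := by exact_mod_cast h9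
          have hk0 : 0 < k := Nat.pos_of_ne_zero h0
          have : (N : ℤ) ∣ (k : ℤ) := ⟨-n, by rw [h10]; ring⟩
          have := Int.natCast_dvd_natCast.mp this
          exact absurd (Nat.le_of_dvd hk0 this) (by omega)
        rcases mul_eq_zero.mp h4 with h | h
        · rw [h, mul_zero, zero_smul]
        · exact absurd h h5
    rw [Finset.sum_congr rfl h2, Finset.sum_ite_eq' (Finset.range N) 0 (fun _ => (N : ℂ) • f),
      if_pos (Finset.mem_range.mpr hN)]
  rw [Finset.sum_congr rfl (fun j _ => hz j), Finset.sum_const_zero] at hsum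
  rcases smul_eq_zero.mp hsum.symm with h | h
  · exact hNC h
  · exact hf h

end avg

/-! ### the operators on the ring -/

section ring
variable (N : ℕ)

/-- translation -/
def Sh (a : ZMod N) : (ZMod N → ℂ) →ₗ[ℂ] (ZMod N → ℂ) where
  toFun x m := x (m + a)
  map_add' _ _ := rfl
  map_smul' _ _ := rfl

/-- `W x (m) = - u(m) x(m+1)` -/
def Wop (u : ZMod N → ℂ) : (ZMod N → ℂ) →ₗ[ℂ] (ZMod N → ℂ) where
  toFun x m := -(u m) * x (m + 1)
  map_add' x y := by
    ext m
    simp [mul_add]
  map_smul' c x := by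
    ext m
    simp [mul_left_comm]

theorem Sh_apply (a : ZMod N) (x : ZMod N → ℂ) (m : ZMod N) : Sh N a x m = x (m + a) := rfl

theorem Wop_apply (u x : ZMod N → ℂ) (m : ZMod N) : Wop N u x m = -(u m) * x (m + 1) := rfl

theorem Sh_pow (a : ZMod N) (k : ℕ) (x : ZMod N → ℂ) (m : ZMod N) :
    ((Sh N a) ^ k) x m = x (m + k * a) := by
  induction k generalizing x m with
  | zero => simp
  | succ k ih =>
    rw [pow_succ, Module.End.mul_apply, ih, Sh_apply]
    congr 1
    push_cast
    ring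

theorem Wop_pow (u : ZMod N → ℂ) (k : ℕ) (x : ZMod N → ℂ) (m : ZMod N) :
    ((Wop N u) ^ k) x m = (∏ j ∈ Finset.range k, (-(u (m + j)))) * x (m + k) := by
  induction k generalizing x m with
  | zero => simp
  | succ k ih =>
    rw [pow_succ, Module.End.mul_apply, ih, Wop_apply, Finset.prod_range_succ]
    rw [← mul_assoc]
    congr 2
    push_cast
    ring

theorem Wop_pow_N [NeZero N] (u : ZMod N → ℂ) :
    (Wop N u) ^ N = (∏ t : ZMod N, (-(u t))) • (1 : (ZMod N → ℂ) →ₗ[ℂ] (ZMod N → ℂ)) := by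
  refine LinearMap.ext fun x => ?_
  funext m
  rw [Wop_pow]
  rw [LinearMap.smul_apply, Module.End.one_apply, Pi.smul_apply, smul_eq_mul]
  congr 1
  · have h1 : ∏ t : ZMod N, (-(u t)) = ∏ t : ZMod N, (-(u (m + t))) :=
      (Equiv.prod_comp (Equiv.addLeft m) (fun t => -(u t))).symm
    rw [h1]
    refine Finset.prod_nbij' (fun j : ℕ => (j : ZMod N)) (fun t => t.val) ?_ ?_ ?_ ?_ ?_
    · intro j _; exact Finset.mem_univ _
    · intro t _; exact Finset.mem_range.mpr (ZMod.val_lt t)
    · intro j hj; exact ZMod.val_cast_of_lt (Finset.mem_range.mp hj)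
    · intro t _; exact ZMod.natCast_zmod_val t
    · intro j _; rfl
  · congr 1
    simp

end ring

/-! ### the reduction -/

theorem phase_cast (N M q : ℕ) (hN : N = M * q) [NeZero q] [NeZero M] [NeZero N] (p : ℤ) (θ : ℝ)
    (n : ℤ) : ex (θ + (((n : ZMod N)).val : ℝ) * (p / q)) = ex (θ + n * (p / q)) := by
  subst hN
  have hq : (q : ℝ) ≠ 0 := by exact_mod_cast NeZero.ne q
  have h1 : (((n : ZMod (M * q))).val : ℤ) = n % ((M * q : ℕ) : ℤ) := ZMod.val_intCast n
  have h2 : n = (((n : ZMod (M * q))).val : ℤ) + ((M * q : ℕ) : ℤ) * (n / ((M * q : ℕ) : ℤ)) := by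
    rw [h1]; exact (Int.emod_add_mul_ediv n _).symm
  set v : ℕ := ((n : ZMod (M * q))).val
  set k : ℤ := n / ((M * q : ℕ) : ℤ)
  have h3 : (n : ℝ) = v + M * q * k := by
    have : ((n : ℤ) : ℝ) = (((v : ℤ) + ((M * q : ℕ) : ℤ) * k : ℤ) : ℝ) := by rw [← h2]
    rw [this]; push_cast; ring
  rw [h3, show θ + ((v : ℝ) + M * q * k) * (p / q) = (θ + v * (p / q)) + ((M * k * p : ℤ) : ℝ) by
    push_cast; field_simp; ring, ex_add _ ((M * k * p : ℤ) : ℝ), ex_int, mul_one]

theorem o3_aux (b4 : T_B4) (c1 : T_C1) (f1 : T_F1) (p : ℤ) (q M N : ℕ) (hN : N = M * q)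
    [NeZero q] [NeZero M] [NeZero N] (θ E : ℝ) (f : ZMod N → ℂ)
    (hpq : IsCoprime p (q : ℤ)) (hq3 : 3 ≤ q) (hf : f ≠ 0)
    (hE : ∀ n, f (n - 1) + f (n + 1)
      + (2 * Real.cos (2 * Real.pi * (θ + n.val * (p / q))) : ℝ) * f n = E * f n) :
    |(Dl p q).eval E| ≤ 4 := by
  have hq : (q : ℝ) ≠ 0 := by exact_mod_cast NeZero.ne q
  have hN1 : 1 ≤ N := Nat.one_le_iff_ne_zero.mpr (NeZero.ne N)
  set β : ℝ := p / q with hβ
  -- the phases
  set u : ZMod N → ℂ := fun m => ex (θ + (m.val : ℝ) * β) with hu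
  have hucast : ∀ n : ℤ, u (n : ZMod N) = ex (θ + n * β) := fun n => phase_cast N M q hN p θ n
  have huadd : ∀ (m : ZMod N) (n : ℤ), u (m + n) = u m * ex (n * β) := by
    intro m n
    obtain ⟨k, rfl⟩ := ZMod.intCast_surjective m
    rw [← Int.cast_add, hucast, hucast, ← ex_add]
    congr 1
    push_cast
    ring
  have hunorm : ∀ m, ‖u m‖ = 1 := fun m => norm_ex _
  have hune : ∀ m, u m ≠ 0 := fun m => ex_ne _
  -- eigenfunctional for the translation by `q`
  have hT1 : (Sh N (q : ZMod N)) ^ M = (1 : ℂ) • (1 : (ZMod N → ℂ) →ₗ[ℂ] (ZMod N → ℂ)) := by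
    refine LinearMap.ext fun x => ?_
    funext m
    rw [Sh_pow, one_smul, Module.End.one_apply]
    congr 1
    have : ((M : ZMod N)) * (q : ZMod N) = 0 := by
      rw [← Nat.cast_mul, ← hN]
      exact ZMod.natCast_self N
    rw [this, add_zero]
  obtain ⟨z, hz1, hz2, hz3⟩ := exists_avg_ne (Sh N (q : ZMod N)) M
    (Nat.one_le_iff_ne_zero.mpr (NeZero.ne M)) 1 norm_one hT1 f hf
  have hT2 := Wop_pow_N N u
  have hc2 : ‖∏ t : ZMod N, (-(u t))‖ = 1 := by
    rw [norm_prod]
    apply Finset.prod_eq_one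
    intro t _
    rw [norm_neg, hunorm]
  obtain ⟨l, hl1, hl2, hl3⟩ := exists_avg_ne (Wop N u) N hN1 _ hc2 hT2 _ hz3
  have hz0 : z ≠ 0 := by intro h; rw [h, norm_zero] at hz1; exact zero_ne_one hz1
  have hl0 : l ≠ 0 := by intro h; rw [h, norm_zero] at hl1; exact zero_ne_one hl1
  obtain ⟨θ', hθ'⟩ := exists_ex l hl1
  obtain ⟨m0, hm0⟩ : ∃ m0, avg (Wop N u) N l (avg (Sh N (q : ZMod N)) M z f) m0 ≠ 0 := by
    by_contra h
    push Not at h
    exact hl3 (funext h)
  set φ : (ZMod N → ℂ) → ℂ :=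
    fun x => avg (Wop N u) N l (avg (Sh N (q : ZMod N)) M z x) m0 with hφ
  have φadd : ∀ x y, φ (x + y) = φ x + φ y := by
    intro x y; simp only [hφ, map_add, Pi.add_apply]
  have φsmul : ∀ (c : ℂ) x, φ (c • x) = c * φ x := by
    intro c x; simp only [hφ, map_smul, Pi.smul_apply, smul_eq_mul]
  have hcomm : Wop N u * Sh N (q : ZMod N) = Sh N (q : ZMod N) * Wop N u := by
    refine LinearMap.ext fun x => ?_
    funext m
    rw [Module.End.mul_apply, Module.End.mul_apply, Wop_apply, Sh_apply, Sh_apply, Wop_apply]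
    have h1 : u (m + q) = u m := by
      have := huadd m (q : ℤ)
      rw [Int.cast_natCast] at this
      rw [this, show (((q : ℤ) : ℝ)) * β = ((p : ℤ) : ℝ) by
        rw [hβ]; push_cast; field_simp, ex_int, mul_one]
    rw [h1]
    congr 2
    ring
  have φT : ∀ x, φ (Sh N (q : ZMod N) x) = z * φ x := by
    intro x
    simp only [hφ]
    rw [avg_T (Sh N (q : ZMod N)) M z hz0 (by rw [hT1, hz2]), map_smul, Pi.smul_apply, smul_eq_mul]
  have φW : ∀ x, φ (Wop N u x) = l * φ x := by
    intro x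
    simp only [hφ]
    rw [avg_comm (Sh N (q : ZMod N)) (Wop N u) M z hcomm,
      avg_T (Wop N u) N l hl0 (by rw [hT2, hl2]), Pi.smul_apply, smul_eq_mul]
  -- the sequence `g`
  set g : ℤ → ℂ := fun n => φ (Sh N (n : ZMod N) f) with hg
  have g0 : g 0 ≠ 0 := by
    have : Sh N ((0 : ℤ) : ZMod N) f = f := by
      funext m; rw [Sh_apply]; simp
    simp only [hg, this]
    exact hm0
  have gq : ∀ n, g (n + q) = z * g n := by
    intro n
    simp only [hg]
    rw [← φT]
    congr 1
    funext m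
    rw [Sh_apply, Sh_apply, Sh_apply]
    congr 1
    push_cast
    ring
  have gk : ∀ (k n : ℤ), g (n + k * q) = z ^ k * g n := by
    intro k
    induction k using Int.induction_on with
    | zero => intro n; simp
    | succ i ih =>
      intro n
      rw [show n + ((i : ℤ) + 1) * (q : ℤ) = (n + i * q) + q by ring, gq, ih, zpow_add_one₀ hz0]
      ring
    | pred i ih =>
      intro n
      have h1 := gq (n + (-(i : ℤ) - 1) * q)
      rw [show n + (-(i : ℤ) - 1) * (q : ℤ) + q = n + -(i : ℤ) * q by ring, ih] at h1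
      have h2 : g (n + (-(i : ℤ) - 1) * (q : ℤ)) = z⁻¹ * (z ^ (-(i : ℤ)) * g n) := by
        rw [h1]
        field_simp
      rw [h2, zpow_sub_one₀ hz0]
      ring
  have hlop : ∀ n, lop β θ' g n = E * g n := by
    intro n
    have e1 : (E : ℂ) * g n = φ (Sh N (n : ZMod N) ((E : ℂ) • f)) := by
      simp only [hg]
      rw [map_smul, φsmul]
    -- pieces
    set A : ZMod N → ℂ := fun m => u (m + n) * f (m + n) with hA
    set B : ZMod N → ℂ := fun m => (u (m + n))⁻¹ * f (m + n) with hB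
    have e2 : Sh N (n : ZMod N) ((E : ℂ) • f)
        = Sh N ((n - 1 : ℤ) : ZMod N) f + Sh N ((n + 1 : ℤ) : ZMod N) f + A + B := by
      funext m
      have h := hE (m + n)
      rw [Sh_apply, Pi.smul_apply, smul_eq_mul, ← h]
      simp only [Pi.add_apply, Sh_apply, hA, hB]
      rw [show m + ((n - 1 : ℤ) : ZMod N) = m + n - 1 by push_cast; ring,
        show m + ((n + 1 : ℤ) : ZMod N) = m + n + 1 by push_cast; ring]
      have h2 : ((2 * Real.cos (2 * Real.pi * (θ + ((m + (n : ZMod N)).val : ℝ) * (p / q))) : ℝ) : ℂ)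
          = u (m + n) + (u (m + n))⁻¹ := by
        simp only [hu]
        rw [← conj_ex, Complex.add_conj]
        congr 2
        unfold ex
        rw [show (2 * Real.pi * ((θ + ((m + (n : ZMod N)).val : ℝ) * β : ℝ) : ℂ) * Complex.I : ℂ)
          = ((2 * Real.pi * (θ + ((m + (n : ZMod N)).val : ℝ) * β) : ℝ) : ℂ) * Complex.I by
            push_cast; ring, Complex.exp_ofReal_mul_I_re]
      rw [h2]
      ring
    have e3 : A = (-(ex (n * β))) • Wop N u (Sh N ((n - 1 : ℤ) : ZMod N) f) := by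
      funext m
      simp only [hA, Pi.smul_apply, smul_eq_mul, Wop_apply, Sh_apply]
      rw [huadd, show m + 1 + ((n - 1 : ℤ) : ZMod N) = m + n by push_cast; ring]
      ring
    have e4 : Wop N u B = (-(ex (-((n + 1 : ℤ) * β)))) • Sh N ((n + 1 : ℤ) : ZMod N) f := by
      funext m
      simp only [hB, Pi.smul_apply, smul_eq_mul, Wop_apply, Sh_apply]
      rw [show m + 1 + (n : ZMod N) = m + ((n + 1 : ℤ) : ZMod N) by push_cast; ring, huadd,
        ex_neg]
      have h1 := hune m
      have h2 := ex_ne (((n + 1 : ℤ) : ℝ) * β)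
      field_simp
    have e5 : φ A = -(ex (n * β)) * (l * g (n - 1)) := by
      rw [e3, φsmul, φW]
    have e6 : l * φ B = -(ex (-((n + 1 : ℤ) * β))) * g (n + 1) := by
      rw [← φW, e4, φsmul]
    have e7 : φ B = -(ex (-((n + 1 : ℤ) * β + θ'))) * g (n + 1) := by
      have : φ B = l⁻¹ * (l * φ B) := by field_simp
      rw [this, e6, neg_add, ex_add, ex_neg θ', ← hθ']
      ring
    rw [e1, e2, φadd, φadd, φadd, e5, e7]
    unfold lop bnd
    rw [map_sub, map_one, conj_ex, ← ex_neg]
    rw [ex_add (n * β) θ', ← hθ']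
    change _ = g (n - 1) + g (n + 1) + _ + _
    ring
  -- the function on the ring with `q` sites
  set F : Rg q := WithLp.toLp 2 (fun j : ZMod q => g (j.val : ℤ)) with hF
  have hFa : ∀ j, F j = g (j.val : ℤ) := fun j => rfl
  have hext : ∀ n, g n = H98.AM.ext q (conj z) F n := by
    intro n
    unfold H98.AM.ext
    rw [hFa, Complex.conj_conj]
    have h1 : (((n : ZMod q)).val : ℤ) = n % (q : ℤ) := ZMod.val_intCast n
    rw [h1, ← gk]
    congr 1
    exact (Int.emod_add_mul_ediv n q).symm.trans (by ring)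
  have hgext : g = H98.AM.ext q (conj z) F := funext hext
  have hzc : ‖conj z‖ = 1 := by rw [Complex.norm_conj]; exact hz1
  have hFi : Fi p q θ' (conj z) F = (E : ℂ) • F := by
    ext j
    have h1 := f1 p q θ' (conj z) F (j.val : ℤ) hzc
    have h2 := hlop (j.val : ℤ)
    have hdiv : ((j.val : ℕ) : ℤ) / (q : ℤ) = 0 :=
      Int.ediv_eq_zero_of_lt (by positivity) (by exact_mod_cast ZMod.val_lt j)
    have h3 : ∀ G : Rg q, H98.AM.ext q (conj z) G (j.val : ℤ) = G j := by
      intro G
      unfold H98.AM.ext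
      rw [hdiv, zpow_zero, one_mul, Int.cast_natCast, ZMod.natCast_zmod_val]
    rw [h3] at h1
    rw [← h1, ← hgext, h2, PiLp.smul_apply, hFa, smul_eq_mul]
  have hF0 : F ≠ 0 := by
    intro h
    have : F 0 = 0 := by rw [h]; rfl
    rw [hFa, ZMod.val_zero] at this
    exact g0 this
  obtain ⟨v, ev, hev⟩ := (b4 q (fb p q θ' (conj z))).1
  obtain ⟨i, hi⟩ : ∃ i, inner ℂ (v i) F ≠ 0 := by
    by_contra h
    push Not at h
    apply hF0
    rw [← v.sum_repr' F]
    apply Finset.sum_eq_zero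
    intro i _
    rw [h i, zero_smul]
  have hEi : E = ev i := by
    have h1 : inner ℂ (v i) (Fi p q θ' (conj z) F) = (ev i : ℂ) * inner ℂ (v i) F := by
      conv_lhs => rw [← v.sum_repr' F]
      rw [map_sum, inner_sum]
      rw [Finset.sum_eq_single i]
      · rw [map_smul]
        have := hev i
        change inner ℂ (v i) (inner ℂ (v i) F • bop (fb p q θ' (conj z)) (v i)) = _
        rw [this, inner_smul_right, inner_smul_right, inner_self_eq_norm_sq_to_K, v.norm_eq_one]
        simp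
        ring
      · intro j _ hj
        rw [map_smul]
        have := hev j
        change inner ℂ (v i) (inner ℂ (v j) F • bop (fb p q θ' (conj z)) (v j)) = _
        rw [this, inner_smul_right, inner_smul_right, v.inner_eq_zero (Ne.symm hj)]
        simp
      · intro h; exact absurd (Finset.mem_univ _) h
    rw [hFi, inner_smul_right] at h1
    have h2 := mul_right_cancel₀ hi h1
    exact_mod_cast h2
  have hC := c1 p q θ' (conj z) (Fin q) v ev hpq hq3 hzc hev (E : ℂ)
  rw [Finset.prod_eq_zero (Finset.mem_univ i) (by rw [hEi, sub_self])] at hC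
  have h4 : (Dl p q).eval E = tt q θ' (conj z) := by
    have h5 : aeval ((E : ℂ)) (Dl p q) = (((Dl p q).eval E : ℝ) : ℂ) := by
      rw [Polynomial.aeval_def]
      exact Polynomial.eval₂_at_apply (Complex.ofRealHom) E (p := Dl p q)
    rw [h5] at hC
    have h6 := sub_eq_zero.mp hC.symm
    exact_mod_cast h6
  rw [h4]
  unfold tt
  rw [abs_mul, abs_two]
  have h7 : |((conj z) * (1 - ex (q * θ'))).re| ≤ 2 := by
    refine (Complex.abs_re_le_norm _).trans ?_
    rw [norm_mul, hzc, one_mul]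
    refine (norm_sub_le _ _).trans ?_
    rw [norm_one, norm_ex]
    norm_num
  linarith

theorem o3 (b4 : T_B4) (c1 : T_C1) (f1 : T_F1) : T_O3 := by
  intro p q M _ _ θ E f hpq hq3 hf hE
  exact o3_aux b4 c1 f1 p q M (M * q) rfl θ E f hpq hq3 hf hE

end Pool.Agent.H67.AM
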