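import Pool.Agent.H98.AM.Targets

/-! # MP_29bb0a_mp, module O5: from two scales to the upper box dimension. helper67 -/

open Filter Topology Set

noncomputable section

namespace Pool.Agent.H67.AM

open Pool.Agent.H98.AM

/-- the set of grid intervals which meet `F` -/
def grid (δ : ℝ) (F : Set ℝ) : Set ℤ := {m : ℤ | (Set.Icc (m * δ) ((m + 1) * δ) ∩ F).Nonempty}

theorem grid_finite (δ : ℝ) (hδ : 0 < δ) (S : Set ℝ) (hS : Bornology.IsBounded S) :
    (grid δ S).Finite := by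
  obtain ⟨R, hR⟩ := hS.subset_closedBall 0
  refine (Set.finite_Icc ⌈-R / δ - 1⌉ ⌊R / δ⌋).subset ?_
  rintro m ⟨x, ⟨hx1, hx2⟩, hx3⟩
  have h := hR hx3
  rw [Metric.mem_closedBall, Real.dist_eq, sub_zero] at h
  have h2 := abs_le.mp h
  constructor
  · apply Int.ceil_le.mpr
    rw [sub_le_iff_le_add, div_le_iff₀ hδ]
    linarith
  · apply Int.le_floor.mpr
    rw [le_div_iff₀ hδ]
    linarith

/-- change of scale -/
theorem ncov_scale (δ δ' : ℝ) (hδ : 0 < δ) (hδ' : 0 < δ') (S : Set ℝ)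
    (hS : Bornology.IsBounded S) :
    (Ncov δ S : ℝ) ≤ (δ' / δ + 2) * Ncov δ' S := by
  classical
  have hfin := grid_finite δ hδ S hS
  have hfin' := grid_finite δ' hδ' S hS
  have e1 : Ncov δ S = hfin.toFinset.card := Set.ncard_eq_toFinset_card _ hfin
  have e2 : Ncov δ' S = hfin'.toFinset.card := Set.ncard_eq_toFinset_card _ hfin'
  have hne : ∀ m ∈ grid δ S, ∃ x ∈ S, (m : ℝ) * δ ≤ x ∧ x ≤ (m + 1) * δ := by
    rintro m ⟨x, ⟨hx1, hx2⟩, hx3⟩
    exact ⟨x, hx3, hx1, hx2⟩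
  choose! x hx using hne
  have hmap : ∀ m ∈ hfin.toFinset, ⌊x m / δ'⌋ ∈ hfin'.toFinset := by
    intro m hm
    rw [Set.Finite.mem_toFinset] at hm ⊢
    refine ⟨x m, ⟨?_, ?_⟩, (hx m hm).1⟩
    · have := Int.floor_le (x m / δ')
      rwa [le_div_iff₀ hδ'] at this
    · have := (Int.lt_floor_add_one (x m / δ')).le
      rwa [div_le_iff₀ hδ'] at this
  have hfib : ∀ k ∈ hfin'.toFinset,
      ((hfin.toFinset.filter (fun m => ⌊x m / δ'⌋ = k)).card : ℝ) ≤ δ' / δ + 2 := by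
    intro k _
    have hsub : hfin.toFinset.filter (fun m => ⌊x m / δ'⌋ = k)
        ⊆ Finset.Icc ⌈k * δ' / δ - 1⌉ ⌊(k + 1) * δ' / δ⌋ := by
      intro m hm
      rw [Finset.mem_filter, Set.Finite.mem_toFinset] at hm
      obtain ⟨hm1, hm2⟩ := hm
      obtain ⟨_, h1, h2⟩ := hx m hm1
      have h3 := Int.floor_le (x m / δ')
      have h4 := (Int.lt_floor_add_one (x m / δ')).le
      rw [hm2] at h3 h4
      rw [le_div_iff₀ hδ'] at h3
      rw [div_le_iff₀ hδ'] at h4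
      rw [Finset.mem_Icc]
      constructor
      · apply Int.ceil_le.mpr
        rw [sub_le_iff_le_add, div_le_iff₀ hδ]
        linarith
      · apply Int.le_floor.mpr
        rw [le_div_iff₀ hδ]
        linarith
    have h1 : ((hfin.toFinset.filter (fun m => ⌊x m / δ'⌋ = k)).card : ℝ)
        ≤ ((⌊((k : ℝ) + 1) * δ' / δ⌋ + 1 - ⌈(k : ℝ) * δ' / δ - 1⌉).toNat : ℝ) := by
      have := Finset.card_le_card hsub
      rw [Int.card_Icc] at this
      exact_mod_cast this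
    refine h1.trans ?_
    have h3 : ((⌊((k : ℝ) + 1) * δ' / δ⌋ : ℤ) : ℝ) ≤ ((k : ℝ) + 1) * δ' / δ := Int.floor_le _
    have h4 : (k : ℝ) * δ' / δ - 1 ≤ ((⌈(k : ℝ) * δ' / δ - 1⌉ : ℤ) : ℝ) := Int.le_ceil _
    have h5 : ((k : ℝ) + 1) * δ' / δ = (k : ℝ) * δ' / δ + δ' / δ := by ring
    have h6 : 0 ≤ δ' / δ := by positivity
    rcases le_total 0 (⌊((k : ℝ) + 1) * δ' / δ⌋ + 1 - ⌈(k : ℝ) * δ' / δ - 1⌉) with h | h
    · have h7 : ((⌊((k : ℝ) + 1) * δ' / δ⌋ + 1 - ⌈(k : ℝ) * δ' / δ - 1⌉).toNat : ℝ)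
          = ((⌊((k : ℝ) + 1) * δ' / δ⌋ + 1 - ⌈(k : ℝ) * δ' / δ - 1⌉ : ℤ) : ℝ) := by
        exact_mod_cast congrArg (Int.cast (R := ℝ)) (Int.toNat_of_nonneg h)
      rw [h7]
      push_cast
      linarith
    · rw [Int.toNat_of_nonpos h]
      simp only [Nat.cast_zero]
      linarith
  rw [e1, e2, Finset.card_eq_sum_card_fiberwise hmap]
  push_cast
  calc _ ≤ ∑ k ∈ hfin'.toFinset, (δ' / δ + 2) := Finset.sum_le_sum hfib
    _ = _ := by rw [Finset.sum_const, nsmul_eq_mul, mul_comm]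

theorem log_nat_le (n : ℕ) (B : ℝ) (h : (n : ℝ) ≤ B) (hB : 1 ≤ B) :
    Real.log n ≤ Real.log B := by
  rcases Nat.eq_zero_or_pos n with h0 | h0
  · rw [h0]
    simp only [Nat.cast_zero, Real.log_zero]
    exact Real.log_nonneg hB
  · exact Real.log_le_log (by exact_mod_cast h0) h

/-- large scales -/
theorem log_big (δ δ' K Q a : ℝ) (S : Set ℝ) (hS : Bornology.IsBounded S) (hδ' : 0 < δ')
    (h : δ' ≤ δ) (hK : 1 ≤ K) (hQ : 1 ≤ Q) (ha : 0 ≤ a) (hN : (Ncov δ' S : ℝ) ≤ K * Q ^ a) :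
    Real.log (Ncov δ S) ≤ Real.log (3 * K) + a * Real.log Q := by
  have hδ : 0 < δ := by linarith
  have hQa : 1 ≤ Q ^ a := Real.one_le_rpow hQ ha
  have h1 := ncov_scale δ δ' hδ hδ' S hS
  have h2 : δ' / δ ≤ 1 := by rw [div_le_one hδ]; exact h
  have h3 : (Ncov δ S : ℝ) ≤ (3 * K) * Q ^ a := by
    have : (0 : ℝ) ≤ Ncov δ' S := by positivity
    nlinarith
  have h4 := log_nat_le _ _ h3 (by nlinarith)
  rwa [Real.log_mul (by positivity) (by positivity), Real.log_rpow (by linarith)] at h4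

/-- small scales -/
theorem log_small (δ δ' K Q a : ℝ) (S : Set ℝ) (hS : Bornology.IsBounded S) (hδ : 0 < δ)
    (h : δ ≤ δ') (hK : 1 ≤ K) (hQ : 1 ≤ Q) (ha : 0 ≤ a) (hN : (Ncov δ' S : ℝ) ≤ K * Q ^ a) :
    Real.log (Ncov δ S) ≤ Real.log (3 * K) + (Real.log δ' - Real.log δ) + a * Real.log Q := by
  have hδ' : 0 < δ' := by linarith
  have hQa : 1 ≤ Q ^ a := Real.one_le_rpow hQ ha
  have h1 := ncov_scale δ δ' hδ hδ' S hS
  have h2 : 1 ≤ δ' / δ := by rw [one_le_div hδ]; exact h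
  have h3 : (Ncov δ S : ℝ) ≤ (3 * K) * (δ' / δ) * Q ^ a := by
    have h5 : (0 : ℝ) ≤ Ncov δ' S := by positivity
    calc (Ncov δ S : ℝ) ≤ (δ' / δ + 2) * Ncov δ' S := h1
      _ ≤ (3 * (δ' / δ)) * Ncov δ' S := by
        apply mul_le_mul_of_nonneg_right _ h5
        linarith
      _ ≤ (3 * (δ' / δ)) * (K * Q ^ a) := by
        apply mul_le_mul_of_nonneg_left hN (by positivity)
      _ = _ := by ring
  have h4 := log_nat_le _ _ h3 (by
    have h6 : 1 ≤ 3 * K := by linarith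
    have h7 : 1 ≤ 3 * K * (δ' / δ) := by nlinarith
    nlinarith)
  rwa [Real.log_mul (by positivity) (by positivity), Real.log_mul (by positivity) (by positivity),
    Real.log_rpow (by linarith), Real.log_div (by positivity) (by positivity)] at h4

theorem o5 : T_O5 := by
  intro S q C0 K c ε hS hC0 hK hc hc1 hε hεc hq hadj hN1 hN2
  -- the exponents
  set D1 : ℝ := (2 - c) / (3 - c - ε) with hD1
  set D2 : ℝ := (2 + 2 * ε) / (3 + c + 2 * ε) with hD2
  have hden1 : 0 < 3 - c - ε := by linarith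
  have hden2 : 0 < 3 + c + 2 * ε := by linarith
  have hD1lt : D1 < 2 / 3 := by
    rw [hD1, div_lt_div_iff₀ hden1 (by norm_num)]
    linarith
  have hD2lt : D2 < 2 / 3 := by
    rw [hD2, div_lt_div_iff₀ hden2 (by norm_num)]
    linarith
  set D : ℝ := max D1 D2 with hD
  have hDlt : D < 2 / 3 := max_lt hD1lt hD2lt
  set C1 : ℝ := Real.log (3 * K) + 2 * Real.log C0 with hC1
  have hlC0 : 0 ≤ Real.log C0 := Real.log_nonneg hC0
  have hl3K : 0 ≤ Real.log (3 * K) := Real.log_nonneg (by linarith)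
  -- the starting index
  obtain ⟨n0, hn0⟩ : ∃ n0, ∀ n ≥ n0, (1 ≤ q n ∧
      (Ncov ((q n : ℝ) ^ (-2 : ℝ)) S : ℝ) ≤ K * (q n : ℝ) ^ (1 + ε)) ∧
      (Ncov ((q n : ℝ) ^ (-3 : ℝ)) S : ℝ) ≤ K * (q n : ℝ) ^ (2 - c) := by
    have h1 := ((hq.eventually_ge_atTop 1).and hN1).and hN2
    exact Filter.eventually_atTop.mp h1
  -- main estimate
  have main : ∀ δ : ℝ, 0 < δ → δ ≤ (q n0 : ℝ) ^ (-2 : ℝ) →
      Real.log (Ncov δ S) ≤ C1 + D * (-Real.log δ) := by
    intro δ hδ hδ0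
    have hex : ∃ m, n0 ≤ m ∧ (q m : ℝ) ^ (-2 : ℝ) < δ := by
      have ht : Tendsto (fun m => (q m : ℝ) ^ (-2 : ℝ)) atTop (𝓝 0) :=
        (tendsto_rpow_neg_atTop (by norm_num : (0 : ℝ) < 2)).comp
          (tendsto_natCast_atTop_atTop.comp hq)
      have h1 := (ht.eventually_lt_const hδ).and (Filter.eventually_ge_atTop n0)
      obtain ⟨m, hm⟩ := h1.exists
      exact ⟨m, hm.2, hm.1⟩
    classical
    obtain ⟨m, ⟨hm1, hm2⟩, hmin⟩ : ∃ m, (n0 ≤ m ∧ (q m : ℝ) ^ (-2 : ℝ) < δ) ∧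
        ∀ k, k < m → ¬ (n0 ≤ k ∧ (q k : ℝ) ^ (-2 : ℝ) < δ) :=
      ⟨Nat.find hex, Nat.find_spec hex, fun k hk => Nat.find_min hex hk⟩
    have hmn : m ≠ n0 := by
      intro h
      rw [h] at hm2
      exact absurd hδ0 (not_le.mpr hm2)
    obtain ⟨n, rfl⟩ : ∃ n, m = n + 1 := ⟨m - 1, by omega⟩
    have hn : n0 ≤ n := by omega
    have hδn : δ ≤ (q n : ℝ) ^ (-2 : ℝ) := by
      by_contra hcon
      exact hmin n (Nat.lt_succ_self n) ⟨hn, not_le.mp hcon⟩
    obtain ⟨⟨hQ1, hA⟩, hB⟩ := hn0 n hn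
    obtain ⟨⟨hQ1', hA'⟩, _⟩ := hn0 (n + 1) (by omega)
    have hQ : (1 : ℝ) ≤ q n := by exact_mod_cast hQ1
    have hQ' : (1 : ℝ) ≤ q (n + 1) := by exact_mod_cast hQ1'
    set Q : ℝ := (q n : ℝ) with hQdef
    set Q' : ℝ := (q (n + 1) : ℝ) with hQ'def
    have hl : 0 ≤ Real.log Q := Real.log_nonneg hQ
    have hl' : Real.log Q' ≤ Real.log C0 + 2 * Real.log Q := by
      have h1 := Real.log_le_log (by linarith) (hadj n).2
      rwa [Real.log_mul (by positivity) (by positivity), Real.log_pow] at h1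
    have hlog2 : Real.log (Q ^ (-2 : ℝ)) = -2 * Real.log Q := Real.log_rpow (by linarith) _
    have hlog3 : Real.log (Q ^ (-3 : ℝ)) = -3 * Real.log Q := Real.log_rpow (by linarith) _
    have hy : 2 * Real.log Q ≤ -Real.log δ := by
      have := Real.log_le_log hδ hδn
      rw [hlog2] at this
      linarith
    have hy0 : 0 ≤ -Real.log δ := by linarith
    rcases le_total (Q ^ (-3 : ℝ)) δ with hcase | hcase
    · -- case A
      have a1 := log_big δ (Q ^ (-3 : ℝ)) K Q (2 - c) S hS (by positivity) hcase hK hQ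
        (by linarith) hB
      have a2 := log_small δ (Q ^ (-2 : ℝ)) K Q (1 + ε) S hS hδ hδn hK hQ (by linarith) hA
      rw [hlog2] at a2
      have h1 : Real.log (Ncov δ S) ≤ Real.log (3 * K) + D1 * (-Real.log δ) := by
        have h2 : (1 - ε) / (3 - c - ε) * Real.log (Ncov δ S)
            ≤ (1 - ε) / (3 - c - ε) * (Real.log (3 * K) + (2 - c) * Real.log Q) :=
          mul_le_mul_of_nonneg_left a1 (div_nonneg (by linarith) hden1.le)
        have h3 : D1 * Real.log (Ncov δ S)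
            ≤ D1 * (Real.log (3 * K) + (-2 * Real.log Q - Real.log δ) + (1 + ε) * Real.log Q) :=
          mul_le_mul_of_nonneg_left a2 (div_nonneg (by linarith) hden1.le)
        have h4 : (1 - ε) / (3 - c - ε) = 1 - D1 := by
          rw [hD1]; field_simp; ring
        have h5 : (1 - D1) * (2 - c) = D1 * (1 - ε) := by
          rw [hD1]; field_simp; ring
        rw [h4] at h2
        nlinarith
      have h2 : D1 * (-Real.log δ) ≤ D * (-Real.log δ) :=
        mul_le_mul_of_nonneg_right (le_max_left _ _) hy0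
      linarith
    · -- case B
      have a1 := log_small δ (Q ^ (-3 : ℝ)) K Q (2 - c) S hS hδ hcase hK hQ (by linarith) hB
      have a2 := log_big δ (Q' ^ (-2 : ℝ)) K Q' (1 + ε) S hS (by positivity) hm2.le hK hQ'
        (by linarith) hA'
      rw [hlog3] at a1
      have a3 : Real.log (Ncov δ S) ≤ C1 + (2 + 2 * ε) * Real.log Q := by
        have : (1 + ε) * Real.log Q' ≤ (1 + ε) * (Real.log C0 + 2 * Real.log Q) :=
          mul_le_mul_of_nonneg_left hl' (by linarith)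
        nlinarith
      have a4 : Real.log (Ncov δ S) ≤ C1 + (-Real.log δ) - (1 + c) * Real.log Q := by
        linarith
      have h1 : Real.log (Ncov δ S) ≤ C1 + D2 * (-Real.log δ) := by
        have h2 : (1 + c) / (3 + c + 2 * ε) * Real.log (Ncov δ S)
            ≤ (1 + c) / (3 + c + 2 * ε) * (C1 + (2 + 2 * ε) * Real.log Q) :=
          mul_le_mul_of_nonneg_left a3 (div_nonneg (by linarith) hden2.le)
        have h3 : D2 * Real.log (Ncov δ S)
            ≤ D2 * (C1 + (-Real.log δ) - (1 + c) * Real.log Q) :=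
          mul_le_mul_of_nonneg_left a4 (div_nonneg (by linarith) hden2.le)
        have h4 : (1 + c) / (3 + c + 2 * ε) = 1 - D2 := by
          rw [hD2]; field_simp; ring
        have h5 : (1 - D2) * (2 + 2 * ε) = D2 * (1 + c) := by
          rw [hD2]; field_simp; ring
        rw [h4] at h2
        nlinarith
      have h2 : D2 * (-Real.log δ) ≤ D * (-Real.log δ) :=
        mul_le_mul_of_nonneg_right (le_max_right _ _) hy0
      linarith
  -- the limit
  set η : ℝ := (2 / 3 - D) / 2 with hη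
  have hη0 : 0 < η := by rw [hη]; linarith
  have hC1 : 0 ≤ C1 := by positivity
  have hQ0 : (0 : ℝ) < (q n0 : ℝ) ^ (-2 : ℝ) := by
    have : (0 : ℝ) < q n0 := by exact_mod_cast (hn0 n0 le_rfl).1.1
    positivity
  have hev : ∀ᶠ δ : ℝ in 𝓝[>] 0,
      ((Real.log (Ncov δ S) / Real.log (1 / δ) : ℝ) : EReal) ≤ ((D + η : ℝ) : EReal) := by
    have h1 : ∀ᶠ δ : ℝ in 𝓝[>] 0, δ < (q n0 : ℝ) ^ (-2 : ℝ) :=
      (eventually_lt_nhds hQ0).filter_mono nhdsWithin_le_nhds
    have h2 : ∀ᶠ δ : ℝ in 𝓝[>] 0, δ < Real.exp (-(C1 / η + 1)) :=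
      (eventually_lt_nhds (Real.exp_pos _)).filter_mono nhdsWithin_le_nhds
    filter_upwards [h1, h2, self_mem_nhdsWithin] with δ hd1 hd2 hd3
    have hd3 : 0 < δ := hd3
    rw [EReal.coe_le_coe_iff]
    have h3 : Real.log δ < -(C1 / η + 1) := by
      have := Real.log_lt_log hd3 hd2
      rwa [Real.log_exp] at this
    have h4 : Real.log (1 / δ) = -Real.log δ := by
      rw [one_div, Real.log_inv]
    have h5 : 0 ≤ C1 / η := by positivity
    rw [h4, div_le_iff₀ (by linarith)]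
    have h6 := main δ hd3 hd1.le
    have h7 : C1 ≤ η * (-Real.log δ) := by
      have : C1 / η ≤ -Real.log δ := by linarith
      rwa [div_le_iff₀ hη0, mul_comm] at this
    linarith
  have hle : upperBoxDim S ≤ ((D + η : ℝ) : EReal) := by
    unfold upperBoxDim
    exact Filter.limsup_le_of_le (by isBoundedDefault) hev
  refine hle.trans_lt ?_
  rw [EReal.coe_lt_coe_iff]
  rw [hη]
  linarith

end Pool.Agent.H67.AM
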