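import Pool.Agent.H98.AM.Targets

/-! # MP_29bb0a_mp, module O7: the continued fraction of Cahen's constant. helper67 -/

open Filter Topology

noncomputable section

namespace Pool.Agent.H67.AM

open Pool.Agent.H98.AM

/-- the pair `(q_n, q_{n+1})` -/
def qpair : ℕ → ℕ × ℕ
  | 0 => (1, 1)
  | n + 1 => ((qpair n).2, (qpair n).1 ^ 2 * (qpair n).2 + (qpair n).1)

def qq (n : ℕ) : ℕ := (qpair n).1

def ppair : ℕ → ℤ × ℤ
  | 0 => (0, 1)
  | n + 1 => ((ppair n).2, (qq n : ℤ) ^ 2 * (ppair n).2 + (ppair n).1)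

def pp (n : ℕ) : ℤ := (ppair n).1

theorem qq_zero : qq 0 = 1 := rfl
theorem qq_one : qq 1 = 1 := rfl
theorem qq_rec (n : ℕ) : qq (n + 2) = qq n ^ 2 * qq (n + 1) + qq n := rfl
theorem pp_zero : pp 0 = 0 := rfl
theorem pp_one : pp 1 = 1 := rfl
theorem pp_rec (n : ℕ) : pp (n + 2) = (qq n : ℤ) ^ 2 * pp (n + 1) + pp n := rfl

theorem qq_pos : ∀ n, 1 ≤ qq n
  | 0 => le_of_eq rfl
  | 1 => le_of_eq rfl
  | n + 2 => by
    rw [qq_rec]
    have := qq_pos n
    omega

theorem det_eq (n : ℕ) : pp (n + 1) * qq n - pp n * qq (n + 1) = (-1) ^ n := by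
  induction n with
  | zero => simp [qq_zero, qq_one, pp_zero, pp_one]
  | succ n ih =>
    rw [qq_rec, pp_rec]
    push_cast
    rw [pow_succ (-1 : ℤ) n, ← ih]
    ring

theorem qq_lt (n : ℕ) : qq (n + 1) < qq (n + 2) := by
  rw [qq_rec]
  have h1 := qq_pos n
  have h2 := qq_pos (n + 1)
  nlinarith [Nat.mul_le_mul_right (qq (n + 1)) (Nat.one_le_pow 2 _ h1)]

theorem qq_le (n : ℕ) : qq n ≤ qq (n + 1) := by
  cases n with
  | zero => exact le_of_eq rfl
  | succ n => exact (qq_lt n).le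

theorem qq_tendsto : Tendsto qq atTop atTop := by
  have h : StrictMono (fun n => qq (n + 1)) := strictMono_nat_of_lt_succ qq_lt
  exact (tendsto_add_atTop_iff_nat 1).mp h.tendsto_atTop

theorem upp2 : ∀ n, qq (n + 1) ≤ 2 * qq n ^ 2
  | 0 => by simp [qq_zero, qq_one]
  | 1 => by
    rw [qq_rec, qq_zero, qq_one]
    norm_num
  | n + 2 => by
    have ih := upp2 n
    have h1 := qq_pos n
    have h2 := qq_pos (n + 1)
    have h3 : qq n ≤ qq (n + 2) := (qq_le n).trans (qq_le (n + 1))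
    have key : qq (n + 3) * qq n ^ 2 ≤ qq (n + 1) * qq (n + 2) ^ 2 := by
      have e3 : qq (n + 3) = qq (n + 1) * (qq (n + 1) * qq (n + 2) + 1) := by
        rw [qq_rec (n + 1)]; ring
      rw [e3, mul_assoc]
      apply Nat.mul_le_mul_left
      have : qq (n + 2) ^ 2 = qq (n + 2) * (qq n ^ 2 * qq (n + 1) + qq n) := by
        rw [sq]; congr 1
      rw [this]
      nlinarith [Nat.mul_le_mul_right (qq n) h3]
    have h4 : qq (n + 3) * qq n ^ 2 ≤ (2 * qq (n + 2) ^ 2) * qq n ^ 2 := by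
      calc qq (n + 3) * qq n ^ 2 ≤ qq (n + 1) * qq (n + 2) ^ 2 := key
        _ ≤ (2 * qq n ^ 2) * qq (n + 2) ^ 2 := Nat.mul_le_mul_right _ ih
        _ = _ := by ring
    exact Nat.le_of_mul_le_mul_right h4 (by positivity)

theorem low2 (n : ℕ) : qq n ^ 2 ≤ 2 * qq (n + 1) := by
  cases n with
  | zero => simp [qq_zero, qq_one]
  | succ n =>
    rw [qq_rec]
    nlinarith [Nat.mul_le_mul_right (qq (n + 1)) (upp2 n)]

theorem syl_succ (n : ℕ) : sylvester (n + 1) = 1 + (∏ i : Fin n, sylvester i.1) * sylvester n := by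
  rw [sylvester, Fin.prod_univ_castSucc]
  rfl

theorem syl_eq (n : ℕ) : sylvester n = 1 + qq n * qq (n + 1) := by
  induction n with
  | zero =>
    rw [sylvester]
    simp [qq_zero, qq_one]
  | succ n ih =>
    have h : (∏ i : Fin n, sylvester i.1) = qq n * qq (n + 1) := by
      have := sylvester.eq_1 n
      omega
    rw [syl_succ, h, ih, qq_rec]
    ring

theorem x_two (n : ℕ) : 2 * (qq n * qq (n + 1)) ≤ qq (n + 1) * qq (n + 2) := by
  rw [qq_rec]
  have h1 := qq_pos n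
  have h2 := qq_pos (n + 1)
  have h3 : 1 ≤ qq n * qq (n + 1) := Nat.mul_pos h1 h2
  have : qq (n + 1) * (qq n ^ 2 * qq (n + 1) + qq n)
      = (qq n * qq (n + 1)) * (qq n * qq (n + 1)) + qq n * qq (n + 1) := by ring
  rw [this]
  nlinarith [Nat.mul_le_mul_right (qq n * qq (n + 1)) h3]

theorem x_pow (n j : ℕ) : 2 ^ j * (qq n * qq (n + 1)) ≤ qq (j + n) * qq (j + n + 1) := by
  induction j with
  | zero => simp
  | succ j ih =>
    have := x_two (j + n)
    have e : j + 1 + n = j + n + 1 := by ring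
    rw [e, pow_succ]
    calc 2 ^ j * 2 * (qq n * qq (n + 1)) = 2 * (2 ^ j * (qq n * qq (n + 1))) := by ring
      _ ≤ 2 * (qq (j + n) * qq (j + n + 1)) := Nat.mul_le_mul_left _ ih
      _ ≤ _ := this

def term (j : ℕ) : ℝ := (-1 : ℝ) ^ j / ((sylvester j : ℝ) - 1)

theorem term_eq (j : ℕ) : term j = (-1 : ℝ) ^ j / ((qq j : ℝ) * qq (j + 1)) := by
  unfold term
  rw [syl_eq]
  push_cast
  congr 1
  ring

theorem abs_term (n j : ℕ) :
    ‖term (j + n)‖ ≤ (1 / ((qq n : ℝ) * qq (n + 1))) * (1 / 2) ^ j := by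
  rw [term_eq, norm_div, norm_pow, norm_neg, norm_one, one_pow]
  have h1 : (0 : ℝ) < (qq n : ℝ) * qq (n + 1) := by
    have h1 := qq_pos n
    have h2 := qq_pos (n + 1)
    positivity
  have h2 : (2 : ℝ) ^ j * ((qq n : ℝ) * qq (n + 1)) ≤ (qq (j + n) : ℝ) * qq (j + n + 1) := by
    exact_mod_cast x_pow n j
  have h3 : ‖(qq (j + n) : ℝ) * qq (j + n + 1)‖ = (qq (j + n) : ℝ) * qq (j + n + 1) := by
    rw [Real.norm_of_nonneg]; positivity
  rw [h3, one_div_pow, ← one_div_mul_one_div_rev, one_div_mul_one_div_rev, one_div_mul_one_div_rev]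
  apply one_div_le_one_div_of_le (by positivity)
  linarith

theorem part_sum (n : ℕ) : ∑ j ∈ Finset.range n, term j = (pp n : ℝ) / qq n := by
  induction n with
  | zero => simp [pp_zero]
  | succ n ih =>
    rw [Finset.sum_range_succ, ih, term_eq]
    have h1 : (qq n : ℝ) ≠ 0 := by have := qq_pos n; positivity
    have h2 : (qq (n + 1) : ℝ) ≠ 0 := by have := qq_pos (n + 1); positivity
    have h3 : (pp (n + 1) : ℝ) * qq n - pp n * qq (n + 1) = (-1) ^ n := by
      exact_mod_cast det_eq n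
    rw [← h3]
    field_simp
    ring

theorem term_summable : Summable term := by
  refine Summable.of_norm_bounded (g := fun j => (1 / ((qq 0 : ℝ) * qq (0 + 1))) * (1 / 2) ^ j)
    ?_ (fun j => ?_)
  · exact (summable_geometric_of_lt_one (by norm_num) (by norm_num)).mul_left _
  · exact abs_term 0 j

theorem cahen_sub (n : ℕ) : |cahen - pp n / qq n| ≤ 2 * (1 / ((qq n : ℝ) * qq (n + 1))) := by
  have h : cahen = ∑ j ∈ Finset.range n, term j + ∑' j, term (j + n) :=
    (term_summable.sum_add_tsum_nat_add n).symm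
  rw [h, part_sum, add_sub_cancel_left]
  have hg : HasSum (fun j => (1 / ((qq n : ℝ) * qq (n + 1))) * (1 / 2 : ℝ) ^ j)
      ((1 / ((qq n : ℝ) * qq (n + 1))) * 2) := hasSum_geometric_two.mul_left _
  have := tsum_of_norm_bounded hg (abs_term n)
  rw [Real.norm_eq_abs] at this
  linarith

theorem o7 : T_O7 := by
  refine ⟨4, pp, qq, by norm_num, qq_tendsto, fun n => ⟨⟨?_, ?_, ?_, ?_, ?_⟩, ?_⟩⟩
  · refine ⟨-((-1) ^ n * qq (n + 1)), (-1) ^ n * pp (n + 1), ?_⟩
    have h := det_eq n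
    have h2 : ((-1 : ℤ) ^ n) * (-1) ^ n = 1 := by rw [← mul_pow]; simp
    calc -((-1) ^ n * (qq (n + 1) : ℤ)) * pp n + (-1) ^ n * pp (n + 1) * (qq n : ℤ)
        = (-1) ^ n * (pp (n + 1) * qq n - pp n * qq (n + 1)) := by ring
      _ = 1 := by rw [h, h2]
  · refine ⟨(-1) ^ n * qq n, -((-1) ^ n * pp n), ?_⟩
    have h := det_eq n
    have h2 : ((-1 : ℤ) ^ n) * (-1) ^ n = 1 := by rw [← mul_pow]; simp
    calc (-1) ^ n * (qq n : ℤ) * pp (n + 1) + -((-1) ^ n * pp n) * (qq (n + 1) : ℤ)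
        = (-1) ^ n * (pp (n + 1) * qq n - pp n * qq (n + 1)) := by ring
      _ = 1 := by rw [h, h2]
  · have h := det_eq n
    rw [abs_sub_comm, h]
    simp
  · have h : ((qq n : ℝ)) ^ 2 ≤ 2 * qq (n + 1) := by exact_mod_cast low2 n
    have : (0 : ℝ) ≤ qq (n + 1) := by positivity
    linarith
  · have h : ((qq (n + 1) : ℝ)) ≤ 2 * qq n ^ 2 := by exact_mod_cast upp2 n
    have : (0 : ℝ) ≤ (qq n : ℝ) ^ 2 := by positivity
    linarith
  · refine (cahen_sub n).trans ?_
    have h : ((qq n : ℝ)) ^ 2 ≤ 2 * qq (n + 1) := by exact_mod_cast low2 n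
    have h1 : (0 : ℝ) < qq n := by have := qq_pos n; positivity
    have h2 : (0 : ℝ) < qq (n + 1) := by have := qq_pos (n + 1); positivity
    rw [mul_one_div, div_le_div_iff₀ (by positivity) (by positivity)]
    nlinarith [mul_le_mul_of_nonneg_left h h1.le]

end Pool.Agent.H67.AM
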